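import Pool.Agent.Shared.SubspaceAlg.Pen
import Pool.Agent.Shared.SubspaceAlg.Static

/-! The Subspace Theorem for rational points, with real algebraic coefficients at the infinite
place and integer coefficients at the finite places. -/

open Filter Matrix Real

namespace Pool.Agent.Shared.SubspaceAlg

open Pool.Agent.Subspace

lemma cmp_mapK {R R' : Type} [CommRing R] [CommRing R'] (f : R →+* R') {N p : ℕ}
    (M : Matrix (Fin N) (Fin N) R) : cmp p (M.map f) = (cmp p M).map f := by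
  ext J I
  rw [cmp_apply, Matrix.map_apply, cmp_apply, RingHom.map_det]
  rfl

lemma det_cmp_ne_zeroK {K : Type} [Field K] {N p : ℕ} {M : Matrix (Fin N) (Fin N) K}
    (h : M.det ≠ 0) : (cmp p M).det ≠ 0 := by
  have h1 := Matrix.mul_nonsing_inv _ (isUnit_iff_ne_zero.2 h)
  have h2 : (cmp p M).det * (cmp p M⁻¹).det = 1 := by
    rw [← Matrix.det_mul, ← cmp_mul, h1, cmp_one, Matrix.det_one]
  exact left_ne_zero_of_mul_eq_one h2

lemma abv_cmp_leK {K : Type} [Field K] {N p : ℕ} (ab : AbsoluteValue K ℝ)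
    (M : Matrix (Fin N) (Fin N) K) (w : Fin N → ℝ) (h : ∀ i j, ab (M i j) ≤ exp (w i))
    (J I : PS N p) : ab (cmp p M J I) ≤ exp (∑ i ∈ J.1, w i + log p.factorial) := by
  rw [cmp_apply, exp_add, exp_log (by exact_mod_cast p.factorial_pos), mul_comm, ← sum_emb,
    exp_sum]
  have := abv_det_le' ab (M.submatrix (emb J) (emb I)) (∏ a, exp (w (emb J a))) fun σ => by
    rw [← Equiv.prod_comp σ fun a => exp (w (emb J a))]
    exact Finset.prod_le_prod (fun a _ => ab.nonneg _) fun a _ => h _ _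
  simpa using this

lemma abv_cmp_le_gapK {K : Type} [Field K] {N p : ℕ} (ab : AbsoluteValue K ℝ)
    (M : Matrix (Fin N) (Fin N) K) (w : Fin N → ℝ) (h : ∀ i j, ab (M i j) ≤ exp (w i)) (g : ℝ)
    (J T I : PS N p) (hg : ∀ i ∈ J.1, ∀ j ∉ T.1, ab (M i j) ≤ exp (w i - g)) (hI : I ≠ T) :
    ab (cmp p M J I) ≤ exp (∑ i ∈ J.1, w i + log p.factorial - g) := by
  obtain ⟨c, hc⟩ := exists_not_mem hI
  have := abv_det_le' ab (M.submatrix (emb J) (emb I)) (exp (∑ i ∈ J.1, w i - g)) fun σ => by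
    have h1 : ∑ i ∈ J.1, w i - g = ∑ a, (w (emb J (σ a)) - if a = c then g else 0) := by
      rw [Finset.sum_sub_distrib, Equiv.sum_comp σ fun a => w (emb J a), sum_emb]; simp
    rw [h1, exp_sum]
    refine Finset.prod_le_prod (fun a _ => ab.nonneg _) fun a _ => ?_
    by_cases ha : a = c
    · subst ha
      simpa using hg _ (emb_mem J (σ a)) _ hc
    · simpa [ha] using h _ _
  rw [cmp_apply]
  refine this.trans (le_of_eq ?_)
  rw [Fintype.card_fin, add_sub_right_comm, exp_add,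
    exp_log (by exact_mod_cast p.factorial_pos), mul_comm]

lemma exists_padicK (K : Type) [Field K] [NumberField K] (p : ℕ) [Fact p.Prime] :
    ∃ ab : AbsoluteValue K ℝ, ∀ z : ℤ, ab (z : K) = (padicNorm p (z : ℚ) : ℝ) := by
  let f : K →ₐ[ℚ] PadicAlgCl p := IsAlgClosed.lift
  refine ⟨NumberField.place (f : K →+* PadicAlgCl p), fun z => ?_⟩
  rw [NumberField.place_apply, map_intCast, ← Padic.eq_padicNorm, ← PadicAlgCl.norm_extends]
  simp

lemma exists_placesK {K : Type} [Field K] [NumberField K] (φ : K →+* ℝ) (S : Finset ℕ)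
    (hS : ∀ p ∈ S, p.Prime) : ∃ ab : Option S → AbsoluteValue K ℝ,
      (∀ y, ab none y = |φ y|) ∧ ∀ v (z : ℤ), ab v (z : K) = plAbs S hS v (z : ℚ) := by
  have h : ∀ p : S, ∃ ab : AbsoluteValue K ℝ, ∀ z : ℤ, ab (z : K) = (padicNorm p (z : ℚ) : ℝ) :=
    fun p => @exists_padicK K _ _ p ⟨hS p p.2⟩
  choose ab hab using h
  refine ⟨fun v => Option.rec (NumberField.place φ) ab v, fun y => rfl, fun v z => ?_⟩
  rcases v with _ | p
  · rw [plAbs_none_int]
    show ‖φ (z : K)‖ = _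
    rw [map_intCast, Real.norm_eq_abs]
  · exact hab p z

theorem subspace_intK {K : Type} [Field K] [NumberField K] (φ : K →+* ℝ)
    (S : Finset ℕ) (hS : ∀ p ∈ S, p.Prime) (N : ℕ)
    (M0 : Matrix (Fin N) (Fin N) K) (h0 : ∀ i j, IsIntegral ℤ (M0 i j)) (hM0 : M0.det ≠ 0)
    (L : S → Matrix (Fin N) (Fin N) ℤ) (hL : ∀ p, (L p).det ≠ 0)
    (U : Ultrafilter ℕ) (q : ℕ → ℝ) (hq : Tendsto q U atTop) (A δ : ℝ) (hδ : 0 < δ)
    (x : ℕ → Fin N → ℤ) (u : ℕ → Option S → Fin N → ℝ)
    (h : ∀ᶠ k in U, (∀ v i, |u k v i| ≤ A * q k) ∧ ∑ v, ∑ i, u k v i ≤ -δ * q k ∧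
      (∀ i, |(M0.map φ *ᵥ fun j => (x k j : ℝ)) i| ≤ exp (u k none i)) ∧
      ∀ p i, plAbs S hS (some p) ((L p *ᵥ x k) i : ℤ) ≤ exp (u k (some p) i)) :
    ∃ ζ : Fin N → ℚ, ζ ≠ 0 ∧ ∀ᶠ k in U, ζ ⬝ᵥ (fun j => (x k j : ℚ)) = 0 := by
  have hL0 : (M0.map φ).det ≠ 0 := by
    have := φ.map_det M0
    rw [RingHom.mapMatrix_apply] at this
    rw [← this]
    exact (map_ne_zero φ).2 hM0
  obtain ⟨B, hB, hstat⟩ := static_stepR S hS N (M0.map φ) hL0 L hL
  obtain ⟨ab, hab0, hab⟩ := exists_placesK φ S hS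
  let LK : Option S → Matrix (Fin N) (Fin N) K := fun v =>
    Option.rec M0 (fun p => (L p).map (Int.castRingHom K)) v
  have hLKi : ∀ v i j, IsIntegral ℤ (LK v i j) := fun v i j => by
    rcases v with _ | p
    · exact h0 i j
    · exact isIntegral_algebraMap (R := ℤ) (A := K) (x := L p i j)
  have hLKd : ∀ v, (LK v).det ≠ 0 := fun v => by
    rcases v with _ | p
    · exact hM0
    · have := (Int.castRingHom K).map_det (L p)
      rw [RingHom.mapMatrix_apply] at this
      show ((L p).map (Int.castRingHom K)).det ≠ 0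
      rw [← this]
      simpa using hL p
  have hreal : ∀ (G : Matrix (Fin N) (Fin N) ℤ) i j,
      ab none ((LK none * G.map (Int.castRingHom K)) i j) =
        |(M0.map φ * G.map (Int.castRingHom ℝ)) i j| := fun G i j => by
    rw [hab0]
    congr 1
    show φ ((M0 * G.map (Int.castRingHom K)) i j) = _
    simp [Matrix.mul_apply]
  have hfin : ∀ (G : Matrix (Fin N) (Fin N) ℤ) (p : S) i j,
      ab (some p) ((LK (some p) * G.map (Int.castRingHom K)) i j) =
        plAbs S hS (some p) ((L p * G) i j : ℤ) := fun G p i j => by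
    rw [← hab]
    congr 1
    show ((L p).map (Int.castRingHom K) * G.map (Int.castRingHom K)) i j = _
    simp [Matrix.mul_apply]
  set γ : ℝ := δ / (N ^ 2 + 1) with hγ
  have hγ0 : 0 < γ := by positivity
  have hγδ : δ = N ^ 2 * γ + γ := by rw [hγ]; field_simp
  have hev : ∀ c : ℝ, ∀ᶠ k in U, c < γ * q k := fun c =>
    (hq.const_mul_atTop hγ0).eventually_gt_atTop c
  have h1 := (h.and (hev B)).mono fun k hk =>
    hstat (A * q k) (γ * q k) (u k) (x k) hk.1.1 hk.2 (by
      have := hk.1.2.1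
      rw [hγδ] at this
      nlinarith [hk.2]) hk.1.2.2.1 hk.1.2.2.2
  obtain ⟨T, hT⟩ := Ultrafilter.eventually_exists_iff.1 h1
  have hTne : T.Nonempty := hT.exists.choose_spec.1
  obtain ⟨G, hG⟩ := (hT.mono fun k hk => hk.2).choice
  obtain ⟨t, ht⟩ := hG.choice
  obtain ⟨w, hw⟩ := ht.choice
  obtain ⟨T', hT'⟩ := Ultrafilter.eventually_exists_iff.1 hw
  have hc : T'.card = T.card := hT'.exists.choose_spec.1
  obtain ⟨c, hcs⟩ := sum_sum_mem N T.card
  let T0 : PS N T.card := ⟨T, rfl⟩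
  let J0 : PS N T.card := ⟨T', hc⟩
  set lf : ℝ := log (T.card.factorial) with hlf
  have hlf0 : 0 ≤ lf := log_nonneg (by exact_mod_cast T.card.factorial_pos)
  let uu : ℕ → Option S → PS N T.card → ℝ := fun k v J =>
    ∑ i ∈ J.1, w k v i + lf - if v = none ∧ J = J0 then γ * q k else 0
  have hN0 : (0 : ℝ) ≤ N := Nat.cast_nonneg _
  obtain ⟨z, hz, hrel⟩ := penultimateK ab (fun v z => (hab v z).trans_le (plAbs_le v z))
    (fun z hz => by simpa only [hab] using one_le_prod_plAbs (hS := hS) z hz)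
    (fun v => cmp T.card (LK v)) (fun v J I => IsIntegral.det fun a b => hLKi v _ _)
    (fun v => det_cmp_ne_zeroK (hLKd v)) T0 U q hq
    (N * B * A + 2 * γ) (γ / 2) (by positivity) (fun k => cmp T.card (G k)) uu (by
      filter_upwards [hT', hev (N * B * B + lf), hev 0, hev (2 * (c * B +
        (Fintype.card (Option S) * (Fintype.card (PS N T.card) * lf))))] with k hk e1 e0 e2
      obtain ⟨-, hdet, -, -, hwb, hws, hall0, hall1, hgap⟩ := hk
      have hall : ∀ v i j, ab v ((LK v * (G k).map (Int.castRingHom K)) i j) ≤ exp (w k v i) :=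
        fun v i j => by
          rcases v with _ | p
          · rw [hreal]; exact hall0 i j
          · rw [hfin]; exact hall1 p i j
      refine ⟨det_cmp_ne_zero hdet, fun v J => ?_, ?_, fun v J I hI => ?_⟩
      · have b1 : |∑ i ∈ J.1, w k v i| ≤ N * (B * (A * q k + B)) := by
          refine (Finset.abs_sum_le_sum_abs _ _).trans ?_
          refine (Finset.sum_le_sum_of_subset_of_nonneg (Finset.subset_univ _)
            fun i _ _ => abs_nonneg _).trans ?_
          refine (Finset.sum_le_card_nsmul _ _ _ fun i _ => hwb v i).trans ?_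
          simp
        rw [abs_le] at b1 ⊢
        simp only [uu]
        split_ifs <;> constructor <;> nlinarith [b1.1, b1.2]
      · have b1 : ∑ v, ∑ J, uu k v J = c * ∑ v, ∑ i, w k v i +
            Fintype.card (Option S) * (Fintype.card (PS N T.card) * lf) - γ * q k := by
          simp only [uu, Finset.sum_sub_distrib, Finset.sum_add_distrib, hcs, Finset.sum_const,
            Finset.card_univ, nsmul_eq_mul, ← Finset.mul_sum]
          congr 1
          rw [Fintype.sum_option]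
          simp
        rw [b1]
        have b2 : (c : ℝ) * ∑ v, ∑ i, w k v i ≤ c * B :=
          mul_le_mul_of_nonneg_left hws (Nat.cast_nonneg _)
        linarith
      · rw [← cmp_mapK, ← cmp_mul]
        by_cases hv : v = none ∧ J = J0
        · obtain ⟨rfl, rfl⟩ := hv
          simp only [uu, and_self, if_true]
          exact abv_cmp_le_gapK _ _ _ (hall none) _ J0 T0 I
            (fun i hi j hj => by rw [hreal]; exact hgap i hi j hj) hI
        · simp only [uu, hv, if_false, sub_zero]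
          exact abv_cmp_leK _ _ _ (hall v) J I)
  obtain ⟨ζ, hζ, hform⟩ := exists_form (Finset.card_pos.2 hTne) T0 z hz
  refine ⟨ζ, hζ, ?_⟩
  filter_upwards [hT', hrel] with k hk hr
  obtain ⟨-, hdet, hx, ht0, -⟩ := hk
  rw [hx]
  exact hform (G k) (t k) hdet hr ht0

theorem subspace_alg (S : Finset ℕ) (hS : ∀ p ∈ S, p.Prime) (N : ℕ)
    (L0 : Matrix (Fin N) (Fin N) ℝ) (h0 : ∀ i j, IsAlgebraic ℚ (L0 i j)) (hL0 : L0.det ≠ 0)
    (L : S → Matrix (Fin N) (Fin N) ℤ) (hL : ∀ p, (L p).det ≠ 0)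
    (U : Ultrafilter ℕ) (q : ℕ → ℝ) (hq : Tendsto q U atTop) (A δ : ℝ) (hδ : 0 < δ)
    (x : ℕ → Fin N → ℤ) (u : ℕ → Option S → Fin N → ℝ)
    (h : ∀ᶠ k in U, (∀ v i, |u k v i| ≤ A * q k) ∧ ∑ v, ∑ i, u k v i ≤ -δ * q k ∧
      (∀ i, |(L0 *ᵥ fun j => (x k j : ℝ)) i| ≤ exp (u k none i)) ∧
      ∀ p i, plAbs S hS (some p) ((L p *ᵥ x k) i : ℤ) ≤ exp (u k (some p) i)) :
    ∃ ζ : Fin N → ℚ, ζ ≠ 0 ∧ ∀ᶠ k in U, ζ ⬝ᵥ (fun j => (x k j : ℚ)) = 0 := by
  classical
  let E : Set ℝ := Set.range fun c : Fin N × Fin N => L0 c.1 c.2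
  let K : IntermediateField ℚ ℝ := IntermediateField.adjoin ℚ E
  have hfd : FiniteDimensional ℚ K := IntermediateField.finiteDimensional_adjoin fun y hy => by
    obtain ⟨c, rfl⟩ := hy
    exact (h0 _ _).isIntegral
  have hK : NumberField K := ⟨⟩
  let M : Matrix (Fin N) (Fin N) K := fun i j =>
    ⟨L0 i j, IntermediateField.subset_adjoin ℚ E ⟨(i, j), rfl⟩⟩
  have halg : Algebra.IsAlgebraic ℤ K :=
    (IsFractionRing.comap_isAlgebraic_iff (A := ℤ) (K := ℚ) (C := K)).2 inferInstance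
  obtain ⟨D0, hD0, hint⟩ := Algebra.IsAlgebraic.exists_integral_multiples ℤ (A := K)
    (Finset.univ.image fun c : Fin N × Fin N => M c.1 c.2)
  let φ : K →+* ℝ := algebraMap K ℝ
  have hD1 : (1 : ℝ) ≤ |(D0 : ℝ)| := by exact_mod_cast Int.one_le_abs hD0
  have hlD : 0 ≤ log |(D0 : ℝ)| := log_nonneg hD1
  have hmap : (D0 • M).map φ = (D0 : ℝ) • L0 := by
    ext i j
    rw [Matrix.map_apply, Matrix.smul_apply, Matrix.smul_apply, map_zsmul, zsmul_eq_mul,
      smul_eq_mul]
    rfl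
  refine subspace_intK φ S hS N (D0 • M)
    (fun i j => hint _ (Finset.mem_image.2 ⟨(i, j), Finset.mem_univ _, rfl⟩)) (fun hd => ?_) L hL
    U q hq (A + 1) (δ / 2) (by positivity) x (fun k v i => u k v i + log |(D0 : ℝ)|) ?_
  · have := φ.map_det (D0 • M)
    rw [RingHom.mapMatrix_apply, hmap, hd, map_zero, Matrix.det_smul] at this
    exact mul_ne_zero (pow_ne_zero _ (by exact_mod_cast hD0)) hL0 this.symm
  · filter_upwards [h, hq.eventually_ge_atTop (log |(D0 : ℝ)|),
      (hq.const_mul_atTop hδ).eventually_ge_atTop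
        (2 * (Fintype.card (Option S) * (N * log |(D0 : ℝ)|)))] with k hk e1 e2
    refine ⟨fun v i => ?_, ?_, fun i => ?_, fun p i => ?_⟩
    · have := abs_le.1 (hk.1 v i)
      rw [abs_le]; constructor <;> linarith
    · simp only [Finset.sum_add_distrib, Finset.sum_const, Finset.card_univ, Fintype.card_fin,
        nsmul_eq_mul]
      linarith [hk.2.1]
    · rw [hmap, Matrix.smul_mulVec, Pi.smul_apply, smul_eq_mul, abs_mul, exp_add,
        exp_log (by linarith), mul_comm]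
      exact mul_le_mul_of_nonneg_right (hk.2.2.1 i) (abs_nonneg _)
    · exact (hk.2.2.2 p i).trans (exp_le_exp.2 (by linarith))

end Pool.Agent.Shared.SubspaceAlg
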