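import Pool.Agent.Shared.SubspaceAlg.Main

/-! The Subspace Theorem for integer vectors whose coordinates have large smooth divisors. -/

open Filter Real

namespace Pool.Agent.Shared.SubspaceAlg

open Pool.Agent.Subspace

theorem sum_log_units {S : Finset ℕ} {m : ℕ} (hm : m ∈ Nat.factoredNumbers S) :
    ∑ p : S.filter Nat.Prime, (m.factorization p : ℝ) * log ((p : ℕ) : ℝ) = log m := by
  rw [Finset.sum_coe_sort (S.filter Nat.Prime) fun p => (m.factorization p : ℝ) * log (p : ℝ),
    Real.log_nat_eq_sum_factorization, Finsupp.sum]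
  refine (Finset.sum_subset (fun p hp => ?_) fun p _ hp => ?_).symm
  · have hp' : p ∈ m.primeFactors := hp
    exact Finset.mem_filter.2 ⟨Nat.mem_factoredNumbers_iff_primeFactors_subset.1 hm |>.2 hp',
      Nat.prime_of_mem_primeFactors hp'⟩
  · rw [Finsupp.notMem_support_iff.1 hp, Nat.cast_zero, zero_mul]

theorem subspace_units {ι : Type} [Fintype ι] [DecidableEq ι] (S : Finset ℕ)
    (L : Matrix ι ι ℝ) (hL : ∀ i j, IsAlgebraic ℚ (L i j)) (hd : L.det ≠ 0)
    (U : Ultrafilter ℕ) (q : ℕ → ℝ) (hq : Tendsto q U atTop) (A δ : ℝ) (hδ : 0 < δ)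
    (z : ℕ → ι → ℤ) (m : ℕ → ι → ℕ) (ρ : ℕ → ι → ℝ)
    (h : ∀ᶠ k in U, (∀ i, m k i ∈ Nat.factoredNumbers S ∧ (m k i : ℤ) ∣ z k i ∧
      log (m k i) ≤ A * q k ∧ |ρ k i| ≤ A * q k ∧
      |∑ j, L i j * (z k j : ℝ)| ≤ m k i * exp (ρ k i)) ∧ ∑ i, ρ k i ≤ -δ * q k) :
    ∃ ζ : ι → ℚ, ζ ≠ 0 ∧ ∀ᶠ k in U, ∑ i, ζ i * (z k i : ℚ) = 0 := by
  have hS : ∀ p ∈ S.filter Nat.Prime, p.Prime := fun p hp => (Finset.mem_filter.1 hp).2
  set e : Fin (Fintype.card ι) ≃ ι := (Fintype.equivFin ι).symm
  obtain ⟨ζ, h0, h1⟩ := subspace_alg (S.filter Nat.Prime) hS (Fintype.card ι)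
    (L.submatrix e e) (fun i j => hL _ _) (by rwa [Matrix.det_submatrix_equiv_self])
    (fun _ => 1) (fun _ => by simp) U q hq (2 * A) δ hδ (fun k i => z k (e i))
    (fun k v i => Option.elim v (log (m k (e i)) + ρ k (e i))
      fun p => -(((m k (e i)).factorization p : ℝ) * log ((p : ℕ) : ℝ))) (by
      filter_upwards [h] with k hk
      obtain ⟨hk, hρ⟩ := hk
      have hnn : ∀ i (p : S.filter Nat.Prime),
          0 ≤ ((m k i).factorization p : ℝ) * log ((p : ℕ) : ℝ) := fun i p =>
        mul_nonneg (Nat.cast_nonneg _) (log_pos_of_mem hS p).le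
      refine ⟨fun v i => ?_, ?_, fun i => ?_, fun p i => ?_⟩
      · obtain ⟨a1, -, a2, a3, -⟩ := hk (e i)
        have a4 := Real.log_natCast_nonneg (m k (e i))
        have a5 := abs_nonneg (ρ k (e i))
        rcases v with _ | p
        · simp only [Option.elim]
          refine (abs_add_le _ _).trans ?_
          rw [abs_of_nonneg a4]
          linarith
        · simp only [Option.elim]
          rw [abs_neg, abs_of_nonneg (hnn _ p)]
          have a6 := Finset.single_le_sum (f := fun p : S.filter Nat.Prime =>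
            ((m k (e i)).factorization p : ℝ) * log ((p : ℕ) : ℝ)) (fun p _ => hnn (e i) p)
            (Finset.mem_univ p)
          rw [sum_log_units a1] at a6
          linarith
      · rw [Finset.sum_comm]
        have a1 : ∀ i, ∑ v : Option (S.filter Nat.Prime),
            Option.elim v (log (m k (e i)) + ρ k (e i))
              (fun p => -(((m k (e i)).factorization p : ℝ) * log ((p : ℕ) : ℝ))) =
            ρ k (e i) := fun i => by
          rw [Fintype.sum_option]
          simp only [Option.elim]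
          rw [Finset.sum_neg_distrib, sum_log_units (hk (e i)).1]
          ring
        rw [Finset.sum_congr rfl fun i _ => a1 i, Equiv.sum_comp e (ρ k)]
        exact hρ
      · obtain ⟨a1, -, -, -, a2⟩ := hk (e i)
        have a3 : (0 : ℝ) < m k (e i) := by
          exact_mod_cast Nat.pos_of_ne_zero (Nat.ne_zero_of_mem_factoredNumbers a1)
        simp only [Option.elim, Matrix.mulVec, dotProduct, Matrix.submatrix_apply]
        rw [Real.exp_add, Real.exp_log a3, Equiv.sum_comp e fun j => L (e i) j * (z k j : ℝ)]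
        exact a2
      · simp only [Option.elim, Matrix.one_mulVec]
        refine plAbs_le_of_dvd p (Dvd.dvd.trans ?_ (hk (e i)).2.1)
        exact_mod_cast Nat.ordProj_dvd (m k (e i)) p)
  refine ⟨fun i => ζ (e.symm i), fun h2 => h0 (funext fun i => ?_), ?_⟩
  · simpa using congrFun h2 (e i)
  · filter_upwards [h1] with k hk
    rw [← Equiv.sum_comp e]
    simpa [dotProduct] using hk

end Pool.Agent.Shared.SubspaceAlg
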