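import Pool.Agent.Shared.Subspace.AuxPoly

/-! The auxiliary polynomial for linear forms with coefficients in a number field. -/

open MvPolynomial Finset Real

namespace Pool.Agent.Shared.SubspaceAlg

open Pool.Agent.Subspace

section wnormK

variable {K : Type*} [Field K] {σ τ : Type*}

/-- The weighted norm with respect to an absolute value on `K` and radii `ρ`. -/
noncomputable def wnormK (ab : AbsoluteValue K ℝ) (ρ : σ → ℝ) (F : MvPolynomial σ K) : ℝ :=
  ∑ α ∈ F.support, ab (coeff α F) * α.prod fun s k => ρ s ^ k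

variable {ab : AbsoluteValue K ℝ} {ρ : σ → ℝ}

lemma wnormK_nonneg (hρ : ∀ s, 0 ≤ ρ s) (F : MvPolynomial σ K) : 0 ≤ wnormK ab ρ F :=
  sum_nonneg fun α _ => mul_nonneg (ab.nonneg _) (rprod_nonneg hρ α)

lemma wnormK_eq_sum {F : MvPolynomial σ K} {s : Finset (σ →₀ ℕ)} (h : F.support ⊆ s) :
    wnormK ab ρ F = ∑ α ∈ s, ab (coeff α F) * α.prod fun s k => ρ s ^ k :=
  sum_subset h fun α _ hα => by rw [notMem_support_iff.mp hα]; simp

@[simp] lemma wnormK_zero : wnormK ab ρ 0 = 0 := by simp [wnormK]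

lemma wnormK_monomial (a : σ →₀ ℕ) (c : K) :
    wnormK ab ρ (monomial a c) = ab c * a.prod fun s k => ρ s ^ k := by
  classical
  rw [wnormK_eq_sum support_monomial_subset]; simp

@[simp] lemma wnormK_C (c : K) : wnormK ab ρ (C c) = ab c := by
  rw [← monomial_zero', wnormK_monomial]; simp

@[simp] lemma wnormK_one : wnormK ab ρ 1 = 1 := by
  rw [← C_1, wnormK_C]; simp

@[simp] lemma wnormK_X (s : σ) : wnormK ab ρ (X s) = ρ s := by
  rw [X, wnormK_monomial]; simp

lemma wnormK_neg (F : MvPolynomial σ K) : wnormK ab ρ (-F) = wnormK ab ρ F := by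
  simp [wnormK]

lemma wnormK_smul (c : K) (F : MvPolynomial σ K) :
    wnormK ab ρ (c • F) = ab c * wnormK ab ρ F := by
  rw [wnormK_eq_sum support_smul, wnormK, mul_sum]
  exact sum_congr rfl fun α _ => by simp [mul_assoc]

lemma wnormK_add_le (hρ : ∀ s, 0 ≤ ρ s) (F G : MvPolynomial σ K) :
    wnormK ab ρ (F + G) ≤ wnormK ab ρ F + wnormK ab ρ G := by
  classical
  rw [wnormK_eq_sum support_add, wnormK_eq_sum (F := F) (s := F.support ∪ G.support)
    subset_union_left, wnormK_eq_sum (F := G) (s := F.support ∪ G.support) subset_union_right,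
    ← sum_add_distrib]
  refine sum_le_sum fun α _ => ?_
  rw [← add_mul, coeff_add]
  exact mul_le_mul_of_nonneg_right (ab.add_le _ _) (rprod_nonneg hρ α)

lemma wnormK_sum_le (hρ : ∀ s, 0 ≤ ρ s) {ι : Type*} (s : Finset ι) (f : ι → MvPolynomial σ K) :
    wnormK ab ρ (∑ i ∈ s, f i) ≤ ∑ i ∈ s, wnormK ab ρ (f i) :=
  Finset.le_sum_of_subadditive _ wnormK_zero.le (wnormK_add_le hρ) s f

lemma wnormK_mul_le (hρ : ∀ s, 0 ≤ ρ s) (F G : MvPolynomial σ K) :
    wnormK ab ρ (F * G) ≤ wnormK ab ρ F * wnormK ab ρ G := by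
  conv_lhs => rw [F.as_sum, G.as_sum, sum_mul_sum]
  conv_rhs => rw [wnormK, wnormK, sum_mul_sum]
  refine (wnormK_sum_le hρ _ _).trans (sum_le_sum fun α _ => ?_)
  refine (wnormK_sum_le hρ _ _).trans (sum_le_sum fun β _ => ?_)
  rw [monomial_mul, wnormK_monomial, rprod_add, map_mul]
  exact le_of_eq (by ring)

lemma wnormK_prod_le (hρ : ∀ s, 0 ≤ ρ s) {ι : Type*} (s : Finset ι) (f : ι → MvPolynomial σ K) :
    wnormK ab ρ (∏ i ∈ s, f i) ≤ ∏ i ∈ s, wnormK ab ρ (f i) := by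
  classical
  induction s using Finset.induction_on with
  | empty => simp
  | insert a s ha ih =>
    rw [prod_insert ha, prod_insert ha]
    exact (wnormK_mul_le hρ _ _).trans (mul_le_mul_of_nonneg_left ih (wnormK_nonneg hρ _))

lemma wnormK_pow_le (hρ : ∀ s, 0 ≤ ρ s) (F : MvPolynomial σ K) (n : ℕ) :
    wnormK ab ρ (F ^ n) ≤ wnormK ab ρ F ^ n := by
  simpa using wnormK_prod_le (ab := ab) hρ (range n) fun _ => F

lemma coeff_le_wnormK (hρ : ∀ s, 0 ≤ ρ s) (F : MvPolynomial σ K) (α : σ →₀ ℕ) :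
    ab (coeff α F) * (α.prod fun s k => ρ s ^ k) ≤ wnormK ab ρ F := by
  by_cases h : α ∈ F.support
  · exact single_le_sum (f := fun α => ab (coeff α F) * α.prod fun s k => ρ s ^ k)
      (fun β _ => mul_nonneg (ab.nonneg _) (rprod_nonneg hρ β)) h
  · rw [notMem_support_iff.mp h]; simpa using wnormK_nonneg hρ F

lemma wnormK_aeval_le {ρ : τ → ℝ} (hρ : ∀ s, 0 ≤ ρ s) {g : σ → MvPolynomial τ K} {r : σ → ℝ}
    (hg : ∀ s, wnormK ab ρ (g s) ≤ r s) (F : MvPolynomial σ K) :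
    wnormK ab ρ (aeval g F) ≤ wnormK ab r F := by
  conv_lhs => rw [F.as_sum, map_sum]
  refine (wnormK_sum_le hρ _ _).trans (sum_le_sum fun α _ => ?_)
  rw [aeval_monomial]
  refine (wnormK_mul_le hρ _ _).trans ?_
  rw [algebraMap_eq, wnormK_C]
  refine mul_le_mul_of_nonneg_left ((wnormK_prod_le hρ _ _).trans ?_) (ab.nonneg _)
  refine prod_le_prod (fun s _ => wnormK_nonneg hρ _) fun s _ => (wnormK_pow_le hρ _ _).trans ?_
  exact pow_le_pow_left₀ (wnormK_nonneg hρ _) (hg s) _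

lemma wnormK_le_one_mul {r : σ → ℝ} {F : MvPolynomial σ K} {T : ℝ}
    (hT : ∀ α ∈ F.support, (α.prod fun s k => r s ^ k) ≤ T) :
    wnormK ab r F ≤ wnormK ab 1 F * T := by
  rw [wnormK, wnormK, sum_mul]
  refine sum_le_sum fun α hα => ?_
  have : (α.prod fun s k => (1 : σ → ℝ) s ^ k) = 1 := by simp [Finsupp.prod]
  rw [this, mul_one]
  exact mul_le_mul_of_nonneg_left (hT α hα) (ab.nonneg _)

lemma wnormK_map_le_l1 [CharZero K] (hab : ∀ z : ℤ, ab z ≤ |(z : ℝ)|) {F : MvPolynomial σ ℚ}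
    (hF : IsInt F) : wnormK ab 1 (map (algebraMap ℚ K) F) ≤ l1 F := by
  rw [wnormK_eq_sum (support_map_subset _ _), l1]
  refine sum_le_sum fun α _ => ?_
  obtain ⟨z, hz⟩ := isInt_iff.mp hF α
  have : (α.prod fun s k => (1 : σ → ℝ) s ^ k) = 1 := by simp [Finsupp.prod]
  rw [this, mul_one, coeff_map, hz]
  simpa using hab z

end wnormK

section linK

variable {K : Type*} [Field K] {ι κ : Type*} [Fintype ι] [DecidableEq ι] [Fintype κ]
  [DecidableEq κ]

/-- The same linear substitution in each block of variables. -/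
noncomputable def linK (M : Matrix ι ι K) :
    MvPolynomial (κ × ι) K →ₐ[K] MvPolynomial (κ × ι) K :=
  aeval fun s => ∑ j, C (M s.2 j) * X (s.1, j)

omit [Fintype κ] [DecidableEq κ] in
lemma linK_linK {M M' : Matrix ι ι K} (h : M' * M = 1) (P : MvPolynomial (κ × ι) K) :
    linK M (linK M' P) = P := by
  have : (linK (κ := κ) M).comp (linK M') = AlgHom.id K _ := by
    ext1 ⟨a, i⟩
    simp only [linK, AlgHom.comp_apply, aeval_X, map_sum, map_mul, algHom_C, algebraMap_eq,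
      AlgHom.id_apply, mul_sum]
    rw [sum_comm]
    simp only [← mul_assoc, ← sum_mul, ← C_mul, ← map_sum, ← Matrix.mul_apply, h,
      Matrix.one_apply]
    rw [sum_eq_single i]
    · simp
    · intro j _ hj
      simp [hj.symm]
    · simp
  exact congrArg (fun f => f P) this

omit [DecidableEq ι] in
lemma linK_hom (M : Matrix ι ι K) {d : κ → ℕ} {P : MvPolynomial (κ × ι) K}
    (hP : ∀ β ∈ P.support, ∀ h, ∑ i, β (h, i) = d h) :
    ∀ β ∈ (linK M P).support, ∀ h, ∑ i, β (h, i) = d h := by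
  intro β hβ h
  let w : κ × ι → ℕ := fun s => if s.1 = h then 1 else 0
  have hw : ∀ β : κ × ι →₀ ℕ, Finsupp.weight w β = ∑ i, β (h, i) := by
    intro β
    rw [Finsupp.weight_apply, Finsupp.sum_fintype _ _ (by simp), Fintype.sum_prod_type,
      sum_eq_single h]
    · simp [w]
    · intro b _ hb
      simp [w, hb]
    · simp
  have : IsWeightedHomogeneous w (linK M P) (d h) := by
    rw [P.as_sum, map_sum]
    refine IsWeightedHomogeneous.sum _ _ _ fun α hα => ?_
    rw [linK, aeval_monomial, algebraMap_eq, ← hP α hα h, ← hw, Finsupp.weight_apply]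
    refine IsWeightedHomogeneous.C_mul ?_ _
    refine IsWeightedHomogeneous.prod _ _ _ fun s _ => IsWeightedHomogeneous.pow ?_ _
    exact IsWeightedHomogeneous.sum _ _ _ fun j _ =>
      (isWeightedHomogeneous_X K w (s.1, j)).C_mul _
  rw [← hw]
  exact this (mem_support_iff.mp hβ)

omit [DecidableEq ι] [DecidableEq κ] in
lemma wnormK_lin_le (ab : AbsoluteValue K ℝ) (M : Matrix ι ι K) {c : ℝ}
    (hc : ∀ i, ∑ j, ab (M i j) ≤ exp c) {d : κ → ℕ} {P : MvPolynomial (κ × ι) K}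
    (hP : ∀ β ∈ P.support, ∀ h, ∑ i, β (h, i) = d h) :
    wnormK ab 1 (linK M P) ≤ wnormK ab 1 P * exp (c * ∑ h, (d h : ℝ)) := by
  rw [linK]
  refine (wnormK_aeval_le (r := fun _ => exp c) (by simp) (fun s => ?_) P).trans ?_
  · refine (wnormK_sum_le (by simp) _ _).trans (le_trans (sum_le_sum fun j _ => ?_) (hc s.2))
    refine (wnormK_mul_le (by simp) _ _).trans ?_
    rw [wnormK_C, wnormK_X]
    simp
  · refine wnormK_le_one_mul fun α hα => ?_
    rw [AuxP.prod_exp α fun _ => c, AuxP.sum_hom (hP α hα)]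

lemma map_shiftK [CharZero K] {σ : Type*} (x : σ → ℤ) (P : MvPolynomial σ ℚ) :
    map (algebraMap ℚ K) (shift (fun s => (x s : ℚ)) P) =
      aeval (fun s => (X s + C (x s : K) : MvPolynomial σ K)) (map (algebraMap ℚ K) P) := by
  induction P using MvPolynomial.induction_on with
  | C a => simp
  | add p q hp hq => simp only [map_add, hp, hq]
  | mul_X p n hp => simp [hp]

lemma local_boundK [CharZero K] {ab : AbsoluteValue K ℝ} (L : Matrix ι ι K)
    (hL : L.det ≠ 0) {B c : ℝ} (hc : ∀ i, (|B| + ∑ j, ab (L i j)) / ab L.det ≤ exp c)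
    {P : MvPolynomial (κ × ι) ℚ} {d : κ → ℕ}
    (hP : ∀ β ∈ (map (algebraMap ℚ K) P).support, ∀ h, ∑ i, β (h, i) = d h) (u : κ → ι → ℝ)
    (a : κ → ℝ) (hu : ∀ h i, a h ≤ u h i) {T : ℝ}
    (hT : ∀ J ∈ (linK L.adjugate (map (algebraMap ℚ K) P)).support, ∑ s, J s * u s.1 s.2 ≤ T)
    (x : κ × ι → ℤ) (hx : ∀ h i, ab (∑ j, L i j * (x (h, j) : K)) ≤ B * exp (u h i))
    (I : κ × ι →₀ ℕ) :
    ab (algebraMap ℚ K (coeff I (shift (fun s => (x s : ℚ)) P))) * exp (∑ s, I s * a s.1) ≤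
      wnormK ab 1 (linK L.adjugate (map (algebraMap ℚ K) P)) *
        exp (c * ∑ h, (d h : ℝ) + T) := by
  have hab0 : 0 < ab L.det := ab.pos hL
  set Q := linK L.adjugate (map (algebraMap ℚ K) P) with hQ
  let M : Matrix ι ι K := (L.det)⁻¹ • L
  have hM : L.adjugate * M = 1 := by
    rw [Matrix.mul_smul, Matrix.adjugate_mul, smul_smul, inv_mul_cancel₀ hL, one_smul]
  let sh : MvPolynomial (κ × ι) K →ₐ[K] MvPolynomial (κ × ι) K :=
    aeval fun s => X s + C (x s : K)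
  have h1 : map (algebraMap ℚ K) (shift (fun s => (x s : ℚ)) P) = aeval (fun s : κ × ι =>
      sh (∑ j, C (M s.2 j) * X (s.1, j))) Q := by
    rw [map_shiftK]
    conv_lhs => rw [← linK_linK hM (map (algebraMap ℚ K) P), ← hQ, linK]
    rw [← AlgHom.comp_apply, comp_aeval]
  have hρ : ∀ s : κ × ι, 0 ≤ exp (a s.1) := fun _ => (exp_pos _).le
  rw [← AuxP.prod_exp I fun s => a s.1, ← coeff_map]
  refine (coeff_le_wnormK hρ _ I).trans ?_
  rw [h1]
  refine (wnormK_aeval_le (r := fun s => exp (c + u s.1 s.2)) hρ (fun s => ?_) Q).trans ?_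
  · have e : sh (∑ j, C (M s.2 j) * X (s.1, j)) =
        (L.det)⁻¹ • (C (∑ j, L s.2 j * (x (s.1, j) : K)) + ∑ j, C (L s.2 j) * X (s.1, j)) := by
      rw [map_sum, map_sum, ← sum_add_distrib, smul_sum]
      refine sum_congr rfl fun j _ => ?_
      simp only [M, sh, map_mul, aeval_X, algHom_C, algebraMap_eq, Matrix.smul_apply,
        smul_eq_mul, smul_eq_C_mul]
      ring
    rw [e, wnormK_smul, map_inv₀, exp_add]
    have h2 : wnormK ab (fun s : κ × ι => exp (a s.1)) (C (∑ j, L s.2 j * (x (s.1, j) : K)) +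
        ∑ j, C (L s.2 j) * X (s.1, j)) ≤ (|B| + ∑ j, ab (L s.2 j)) * exp (u s.1 s.2) := by
      rw [add_mul, sum_mul]
      refine (wnormK_add_le hρ _ _).trans (add_le_add ?_ ?_)
      · rw [wnormK_C]
        exact (hx _ _).trans (mul_le_mul_of_nonneg_right (le_abs_self _) (exp_pos _).le)
      · refine (wnormK_sum_le hρ _ _).trans (sum_le_sum fun j _ => ?_)
        refine (wnormK_mul_le hρ _ _).trans ?_
        rw [wnormK_C, wnormK_X]
        exact mul_le_mul_of_nonneg_left (exp_le_exp.mpr (hu _ _)) (ab.nonneg _)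
    refine (mul_le_mul_of_nonneg_left h2 (by positivity)).trans ?_
    rw [← mul_assoc, ← div_eq_inv_mul]
    exact mul_le_mul_of_nonneg_right (hc _) (exp_pos _).le
  · refine wnormK_le_one_mul fun J hJ => ?_
    rw [AuxP.prod_exp J fun s => c + u s.1 s.2, exp_le_exp]
    simp only [mul_add, sum_add_distrib]
    rw [AuxP.sum_hom (linK_hom _ hP J hJ)]
    linarith [hT J hJ]

omit [DecidableEq ι] [Fintype κ] [DecidableEq κ] in
lemma linK_integral (M : Matrix ι ι K) (hM : ∀ i j, IsIntegral ℤ (M i j)) (β J : κ × ι →₀ ℕ) :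
    IsIntegral ℤ (coeff J (linK M (monomial β 1))) := by
  have : linK M (monomial β (1 : K)) ∈
      (map (σ := κ × ι) (algebraMap (integralClosure ℤ K) K)).range := by
    rw [linK, aeval_monomial, map_one, one_mul]
    refine Subring.prod_mem _ fun s _ => Subring.pow_mem _ (Subring.sum_mem _ fun j _ =>
      Subring.mul_mem _ ?_ ?_) _
    · exact RingHom.mem_range.mpr ⟨C ⟨M s.2 j, hM _ _⟩, by simp⟩
    · exact RingHom.mem_range.mpr ⟨X (s.1, j), by simp⟩
  obtain ⟨Q, hQ⟩ := this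
  rw [← hQ, coeff_map]
  exact (coeff J Q).2

lemma adjugate_integralK (M : Matrix ι ι K) (hM : ∀ i j, IsIntegral ℤ (M i j)) (i j : ι) :
    IsIntegral ℤ (M.adjugate i j) := by
  let M0 : Matrix ι ι (integralClosure ℤ K) := Matrix.of fun i j => ⟨M i j, hM i j⟩
  have h : (algebraMap (integralClosure ℤ K) K).mapMatrix M0 = M := by
    ext i j; rfl
  rw [← h, ← RingHom.map_adjugate]
  exact (M0.adjugate i j).2

end linK

open NumberField in
lemma auxk_coord (K : Type) [Field K] [NumberField K] :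
    ∃ (f : (K →+* ℂ) → K →ₗ[ℚ] ℚ) (c : ℝ), 0 ≤ c ∧ (∀ α, (∀ i, f i α = 0) → α = 0) ∧
      ∀ α, IsIntegral ℤ α → ∀ H : ℝ, 0 ≤ H → (∀ φ : K →+* ℂ, ‖φ α‖ ≤ H) →
        ∀ i, ∃ z : ℤ, f i α = z ∧ |(z : ℝ)| ≤ exp c * H := by
  classical
  obtain ⟨c, hc⟩ : ∃ c : ℝ, ∀ (α : 𝓞 K) (i : K →+* ℂ),
      ‖(((integralBasis K).reindex (equivReindex K).symm).repr α i : ℂ)‖ ≤
        c * house (algebraMap (𝓞 K) K α) := ⟨_, house.basis_repr_norm_le_const_mul_house K⟩
  refine ⟨fun i => ((integralBasis K).reindex (equivReindex K).symm).coord i, |c|, abs_nonneg _,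
    fun α h => ((integralBasis K).reindex (equivReindex K).symm).forall_coord_eq_zero_iff.mp h,
    fun α hα H hH hφ i => ?_⟩
  have h1 := hc ⟨α, hα⟩ i
  have h2 : ((integralBasis K).reindex (equivReindex K).symm).repr α i =
      (((RingOfIntegers.basis K).repr ⟨α, hα⟩ (equivReindex K i) : ℤ) : ℚ) := by
    rw [Module.Basis.repr_reindex_apply]
    exact integralBasis_repr_apply K ⟨α, hα⟩ _
  refine ⟨_, h2, ?_⟩
  have h3 : house α ≤ H := (pi_norm_le_iff_of_nonneg hH).mpr fun φ => hφ φ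
  have h4 : ‖(((integralBasis K).reindex (equivReindex K).symm).repr α i : ℂ)‖ ≤
      c * house α := h1
  rw [h2, Rat.cast_intCast, Complex.norm_intCast] at h4
  refine h4.trans ?_
  have h5 : c ≤ exp |c| := by linarith [le_abs_self c, add_one_le_exp |c|]
  exact mul_le_mul h5 h3 (house_nonneg _) (exp_pos _).le

lemma exists_polyK {K : Type} [Field K] [CharZero K] {σ Pl n : Type*} [Fintype Pl] [Fintype n]
    (f : n → K →ₗ[ℚ] ℚ) (hf : ∀ α, (∀ i, f i α = 0) → α = 0)
    (Ω : Finset (σ →₀ ℕ)) (hΩ : 0 < Ω.card) (E : Pl → Finset (σ →₀ ℕ))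
    (hE : 2 * ((∑ v, (E v).card) * Fintype.card n) ≤ Ω.card)
    (φ : Pl → MvPolynomial σ K →ₐ[K] MvPolynomial σ K) {M : ℝ} (hM : 1 ≤ M)
    (hφ : ∀ v, ∀ β ∈ Ω, ∀ J i, ∃ z : ℤ, f i (coeff J (φ v (monomial β 1))) = z ∧ |(z : ℝ)| ≤ M) :
    ∃ P : MvPolynomial σ ℚ, P ≠ 0 ∧ IsInt P ∧ P.support ⊆ Ω ∧ l1 P ≤ Ω.card * (Ω.card * M) ∧
      ∀ v, ∀ J ∈ E v, coeff J (φ v (map (algebraMap ℚ K) P)) = 0 := by
  classical
  choose z hz hz' using fun v (β : Ω) => hφ v β.1 β.2
  obtain ⟨t, ht0, ht1, ht2⟩ := AuxP.siegel (α := (Σ v : Pl, E v) × n) (β := Ω)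
    (Matrix.of fun a b => z a.1.1 b a.1.2.1 a.2) (by simpa using hΩ) (by simpa using hE) hM
    (fun a b => hz' _ _ _ _)
  have hc : ∀ b : Ω, coeff b.1 (∑ b : Ω, monomial b.1 (t b : ℚ)) = t b := by
    intro b
    rw [coeff_sum, sum_eq_single b]
    · simp
    · intro b' _ hb
      rw [coeff_monomial, if_neg fun h => hb (Subtype.ext h)]
    · simp
  refine ⟨∑ b : Ω, monomial b.1 (t b : ℚ), fun h0 => ht0 ?_,
    IsInt.sum fun b _ => IsInt.monomial _ _, fun β hβ => ?_, ?_, fun v J hJ => ?_⟩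
  · ext b
    have := hc b
    rw [h0, coeff_zero] at this
    exact_mod_cast this.symm
  · by_contra hb
    apply mem_support_iff.mp hβ
    rw [coeff_sum]
    refine sum_eq_zero fun b _ => ?_
    rw [coeff_monomial, if_neg]
    rintro rfl
    exact hb b.2
  · refine (l1_sum_le _ _).trans ?_
    have : ∀ b : Ω, l1 (monomial b.1 (t b : ℚ)) ≤ Ω.card * M := fun b => by
      rw [l1_monomial]
      simpa using ht2 b
    simpa using sum_le_sum (s := univ) fun b _ => this b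
  · refine hf _ fun i => ?_
    have := congrFun ht1 ⟨⟨v, J, hJ⟩, i⟩
    rw [map_sum, map_sum, coeff_sum, map_sum]
    have e : ∀ b : Ω, f i (coeff J (φ v (map (algebraMap ℚ K) (monomial b.1 (t b : ℚ))))) =
        ((z v b J i * t b : ℤ) : ℚ) := by
      intro b
      rw [map_monomial, ← mul_one (algebraMap ℚ K _), ← smul_eq_mul, ← smul_monomial, map_smul,
        coeff_smul, algebraMap_smul, map_smul, hz]
      simp [mul_comm]
    rw [sum_congr rfl fun b _ => e b, ← Int.cast_sum]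
    exact_mod_cast this

open AuxP in
theorem aux_polyK {K : Type} [Field K] [NumberField K] {ι Pl : Type} [Fintype ι] [DecidableEq ι]
    [Nonempty ι] [Fintype Pl] (ab : Pl → AbsoluteValue K ℝ)
    (hle : ∀ v (z : ℤ), ab v z ≤ |(z : ℝ)|) (hpf : ∀ z : ℤ, z ≠ 0 → 1 ≤ ∏ v, ab v z)
    (L : Pl → Matrix ι ι K) (hLi : ∀ v i j, IsIntegral ℤ (L v i j)) (hL : ∀ v, (L v).det ≠ 0)
    (A δ : ℝ) (hδ : 0 < δ) :
    ∃ m : ℕ, ∀ B : ℝ, ∃ C q0 : ℝ, ∀ (q : Fin m → ℝ) (u : Fin m → Pl → ι → ℝ) (D : ℝ)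
      (d : Fin m → ℕ), (∀ h, q0 ≤ q h) → (∀ h v i, |u h v i| ≤ A * q h) →
      (∀ h, ∑ v, ∑ i, u h v i ≤ -δ * q h) → (∀ h, 0 < d h) → (∀ h, q h * d h ≤ D) →
      (∀ h, D ≤ 2 * (q h * d h)) →
      ∃ P : MvPolynomial (Fin m × ι) ℚ, P ≠ 0 ∧ IsInt P ∧
        (∀ β ∈ P.support, ∀ h, ∑ i, β (h, i) = d h) ∧ log (l1 P) ≤ C * ∑ h, (d h : ℝ) ∧
        ∀ x : Fin m × ι → ℤ,
          (∀ h v i, ab v (∑ j, L v i j * (x (h, j) : K)) ≤ B * exp (u h v i)) →
          Ind (fun s => 1 / (d s.1 : ℝ)) 2 (shift (fun s => (x s : ℚ)) P) := by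
  classical
  set N : ℝ := (Fintype.card ι : ℝ) with hN
  set p : ℝ := (Fintype.card Pl : ℝ) with hp
  have hN0 : 0 < N := by rw [hN]; exact_mod_cast Fintype.card_pos
  have hp0 : 0 ≤ p := by positivity
  set A' := max A 1 with hA'
  have hA0 : 0 < A' := lt_max_of_lt_right one_pos
  set γ := δ / (2 * N) with hγ
  have hγ0 : 0 < γ := by positivity
  obtain ⟨f, c0, hc0, hf0, hf⟩ := auxk_coord K
  set n : ℝ := (Fintype.card (K →+* ℂ) : ℝ) with hn
  have hn1 : 1 ≤ n := by rw [hn]; exact_mod_cast Fintype.card_pos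
  have hpn : p ≤ p * n := le_mul_of_one_le_right hp0 hn1
  obtain ⟨η, m, hη0, hη1, hm0, hm1, hm2, hm3⟩ :=
    exists_param (p * n) A' γ (by positivity) hA0 hγ0
  replace hm1 : p * (4 * η * A') ≤ γ / 4 :=
    (mul_le_mul_of_nonneg_right hpn (by positivity)).trans hm1
  replace hm2 : p * (2 * A') ≤ γ / 4 * m :=
    (mul_le_mul_of_nonneg_right hpn (by positivity)).trans hm2
  have hm0' : (0 : ℝ) < m := by exact_mod_cast hm0
  refine ⟨m, fun B => ?_⟩
  obtain ⟨c1, hc1, hc1'⟩ := exists_exp_bound fun a : Pl × ι =>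
    ∑ j, ab a.1 ((L a.1).adjugate a.2 j)
  obtain ⟨c4, hc4, hc4'⟩ := exists_exp_bound fun a : Pl × ι × (K →+* ℂ) =>
    ∑ j, NumberField.place a.2.2 ((L a.1).adjugate a.2.1 j)
  obtain ⟨c2, hc2, hc2'⟩ := exists_exp_bound fun a : Pl × ι =>
    (|B| + ∑ j, ab a.1 (L a.1 a.2 j)) / ab a.1 (L a.1).det
  set c3 := 2 * N + (c0 + c4) + c1 + c2 with hc3
  have hc30 : 0 ≤ c3 := by positivity
  refine ⟨2 * N + (c0 + c4), max 1 (p * c3 / (γ / 4)),
    fun q u D d hq hu hsum hd hD1 hD2 => ?_⟩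
  have hq1 : ∀ h, 1 ≤ q h := fun h => (le_max_left _ _).trans (hq h)
  have hd1 : ∀ h, (1 : ℝ) ≤ d h := fun h => by exact_mod_cast hd h
  have hD0 : 0 < D := by
    have := hD1 ⟨0, hm0⟩
    nlinarith [hq1 ⟨0, hm0⟩, hd1 ⟨0, hm0⟩]
  have hu' : ∀ h v i, |u h v i| ≤ A' * q h := fun h v i =>
    (hu h v i).trans (mul_le_mul_of_nonneg_right (le_max_left _ _) (by linarith [hq1 h]))
  set S : ℝ := ∑ h, (d h : ℝ) with hS
  have hS0 : 0 ≤ S := by positivity
  have hS1 : 1 ≤ S := (hd1 ⟨0, hm0⟩).trans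
    (single_le_sum (f := fun h => (d h : ℝ)) (fun _ _ => by positivity) (mem_univ _))
  obtain ⟨Ω, hΩ, hΩ0, hΩ1, hΩ2⟩ := exists_omega (ι := ι) d
  let T : Pl → ℝ := fun v => 4 * η * m * (A' * D) + ∑ h, d h * (∑ i, u h v i) / N
  let E : Pl → Finset (Fin m × ι →₀ ℕ) := fun v =>
    Ω.filter fun β => T v < ∑ s, β s * u s.1 v s.2
  have hE : ∀ v, ((E v).card : ℝ) ≤ Ω.card * exp (-(m * η ^ 2)) := fun v => by
    have := hΩ2 (fun h i => u h v i) (A' * D) η (by positivity) hη0 hη1 fun h i => by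
      calc |u h v i| * d h ≤ A' * q h * d h := by gcongr; exact hu' h v i
        _ = A' * (q h * d h) := by ring
        _ ≤ _ := by gcongr; exact hD1 h
    simpa [E, T] using this
  have hE' : 2 * ((∑ v, (E v).card) * Fintype.card (K →+* ℂ)) ≤ Ω.card := by
    have h1 : ∑ v, ((E v).card : ℝ) ≤ p * (Ω.card * exp (-(m * η ^ 2))) := by
      simpa using sum_le_sum (s := univ) fun v _ => hE v
    have h2 : 2 * (p * n) * exp (-(m * η ^ 2)) ≤ 1 := by
      rw [exp_neg, ← div_eq_mul_inv, div_le_one (exp_pos _)]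
      linarith [add_one_le_exp (m * η ^ 2)]
    have h3 : (0 : ℝ) ≤ Ω.card := by positivity
    have h4 : 2 * ((∑ v, ((E v).card : ℝ)) * n) ≤ Ω.card := by
      calc 2 * ((∑ v, ((E v).card : ℝ)) * n)
          ≤ 2 * (p * (Ω.card * exp (-(m * η ^ 2))) * n) := by gcongr
        _ = Ω.card * (2 * (p * n) * exp (-(m * η ^ 2))) := by ring
        _ ≤ Ω.card * 1 := by gcongr
        _ = _ := mul_one _
    rw [hn] at h4
    exact_mod_cast h4
  obtain ⟨P, hP0, hPi, hPΩ, hPl, hPE⟩ := exists_polyK f hf0 Ω hΩ0 E hE'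
    (fun v => linK (L v).adjugate) (M := exp ((c0 + c4) * S)) (one_le_exp (by positivity))
    fun v β hβ J i => by
      obtain ⟨z, hz, hz'⟩ := hf _ (linK_integral _ (adjugate_integralK _ (hLi v)) β J)
        (exp (c4 * S)) (exp_pos _).le (fun φ => by
          have h1 := wnormK_lin_le (NumberField.place φ) (L v).adjugate
            (fun i => hc4' (v, i, φ)) (d := d) (P := monomial β 1) fun α hα => by
              have : α = β := by simpa using support_monomial_subset hα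
              rw [this]; exact (hΩ β).mp hβ
          have h2 := coeff_le_wnormK (ab := NumberField.place φ) (ρ := 1) (by simp)
            (linK (L v).adjugate (monomial β 1)) J
          have h3 := h2.trans h1
          simpa [wnormK_monomial, Finsupp.prod] using h3) i
      refine ⟨z, hz, hz'.trans ?_⟩
      rw [← exp_add, exp_le_exp]
      nlinarith
  have hom : ∀ β ∈ P.support, ∀ h, ∑ i, β (h, i) = d h := fun β hβ => (hΩ β).mp (hPΩ hβ)
  have homK : ∀ β ∈ (map (algebraMap ℚ K) P).support, ∀ h, ∑ i, β (h, i) = d h :=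
    fun β hβ => hom β (support_map_subset _ _ hβ)
  have hPl' : l1 P ≤ exp ((2 * N + (c0 + c4)) * S) := by
    calc l1 P ≤ exp (N * S) * (exp (N * S) * exp ((c0 + c4) * S)) := hPl.trans (by gcongr)
      _ = _ := by rw [← exp_add, ← exp_add]; congr 1; ring
  refine ⟨P, hP0, hPi, hom, ?_, fun x hx => Ind.of_coeff fun I hI => ?_⟩
  · exact (log_le_iff_le_exp (zero_lt_one.trans_le (one_le_l1 hPi hP0))).mpr hPl'
  obtain ⟨z, hz⟩ := isInt_iff.mp (hPi.shift x) I
  by_contra hz0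
  have hz1 : z ≠ 0 := by
    rintro rfl
    exact hz0 (by simpa using hz)
  have hI' : -(2 * (A' * D)) ≤ ∑ s : Fin m × ι, I s * -(A' * q s.1) := by
    rw [Finsupp.weight_apply, Finsupp.sum_fintype _ _ (by simp)] at hI
    have : ∑ s : Fin m × ι, -(A' * D) * (I s • (1 / (d s.1 : ℝ))) ≤
        ∑ s : Fin m × ι, I s * -(A' * q s.1) := by
      refine sum_le_sum fun s _ => ?_
      have h1 : q s.1 ≤ D / d s.1 := by
        rw [le_div_iff₀ (by linarith [hd1 s.1])]; exact hD1 _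
      have h2 : (I s : ℝ) * (A' * q s.1) ≤ I s * (A' * (D / d s.1)) := by gcongr
      rw [nsmul_eq_mul]
      calc _ = -((I s : ℝ) * (A' * (D / d s.1))) := by ring
        _ ≤ _ := by linarith
    rw [← mul_sum] at this
    nlinarith [mul_pos hA0 hD0]
  have hv : ∀ v, ab v z ≤ exp (2 * (A' * D) + c3 * S + T v) := fun v => by
    have h1 := local_boundK (ab := ab v) (L v) (hL v) (fun i => hc2' (v, i)) homK
      (fun h i => u h v i) (fun h => -(A' * q h)) (fun h i => (abs_le.mp (hu' h v i)).1)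
      (T := T v) (fun J hJ => by
        by_contra hJ'
        exact mem_support_iff.mp hJ (hPE v J (mem_filter.mpr
          ⟨(hΩ J).mpr (linK_hom _ homK J hJ), not_le.mp hJ'⟩))) x (fun h i => hx h v i) I
    have h2 := (wnormK_lin_le (ab v) (L v).adjugate (fun i => hc1' (v, i)) homK).trans
      (mul_le_mul_of_nonneg_right (wnormK_map_le_l1 (hle v) hPi) (exp_pos _).le)
    rw [hz, map_intCast] at h1
    have h3 : ab v z * exp (-(2 * (A' * D))) ≤ exp (c3 * S + T v) := by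
      calc ab v z * exp (-(2 * (A' * D)))
          ≤ ab v z * exp (∑ s : Fin m × ι, I s * -(A' * q s.1)) :=
            mul_le_mul_of_nonneg_left (exp_le_exp.mpr hI') ((ab v).nonneg _)
        _ ≤ _ := h1
        _ ≤ exp ((2 * N + (c0 + c4)) * S) * exp (c1 * S) * exp (c2 * S + T v) :=
            mul_le_mul_of_nonneg_right (h2.trans
              (mul_le_mul_of_nonneg_right hPl' (exp_pos _).le)) (exp_pos _).le
        _ = _ := by rw [← exp_add, ← exp_add, hc3]; congr 1; ring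
    rw [exp_neg, ← div_eq_mul_inv, div_le_iff₀ (exp_pos _), ← exp_add] at h3
    exact h3.trans (le_of_eq (by congr 1; ring))
  have h1 : 1 ≤ exp (∑ v, (2 * (A' * D) + c3 * S + T v)) := by
    rw [exp_sum]
    exact (hpf z hz1).trans (prod_le_prod (fun v _ => (ab v).nonneg _) fun v _ => hv v)
  rw [one_le_exp_iff] at h1
  have h2 : ∑ v, ∑ h, d h * (∑ i, u h v i) / N ≤ m * (-γ * D) := by
    rw [sum_comm]
    have : ∀ h, ∑ v, d h * (∑ i, u h v i) / N ≤ -γ * D := fun h => by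
      rw [← sum_div, ← mul_sum, div_le_iff₀ hN0]
      have e : -γ * D * N = -δ * D / 2 := by rw [hγ]; field_simp
      have h3 := mul_le_mul_of_nonneg_left (hsum h) (zero_le_one.trans (hd1 h))
      rw [e]
      nlinarith [hD2 h]
    simpa using sum_le_sum (s := univ) fun h _ => this h
  have h3 : p * c3 * S ≤ m * (γ / 4 * D) := by
    have : ∀ h, p * c3 * d h ≤ γ / 4 * D := fun h => by
      have h4 : p * c3 / (γ / 4) ≤ q h := (le_max_right _ _).trans (hq h)
      rw [div_le_iff₀ (by positivity)] at h4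
      calc p * c3 * d h ≤ q h * (γ / 4) * d h := by gcongr
        _ = γ / 4 * (q h * d h) := by ring
        _ ≤ _ := by gcongr; exact hD1 h
    rw [hS, mul_sum]
    simpa using sum_le_sum (s := univ) fun h _ => this h
  simp only [T, sum_add_distrib, sum_const, card_univ, nsmul_eq_mul, ← hp] at h1
  have h4 := mul_le_mul_of_nonneg_right hm1 (mul_pos hm0' hD0).le
  have h5 := mul_le_mul_of_nonneg_right hm2 hD0.le
  have h6 := mul_pos hγ0 (mul_pos hm0' hD0)
  nlinarith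

end Pool.Agent.Shared.SubspaceAlg
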