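import Pool.Agent.Shared.Subspace.Height

/-! The height dichotomy for linear forms with coefficients in a number field. -/

open Filter Real

namespace Pool.Agent.Shared.SubspaceAlg

open Pool.Agent.Subspace

namespace HeightAuxK

lemma one_le_ab_mulK {K : Type} [Field K] {Pl : Type} [Fintype Pl] (ab : Pl → AbsoluteValue K ℝ)
    (hle : ∀ v (z : ℤ), ab v z ≤ |(z : ℝ)|) (hpf : ∀ z : ℤ, z ≠ 0 → 1 ≤ ∏ v, ab v z)
    (z : ℤ) (hz : z ≠ 0) (v : Pl) : 1 ≤ ab v z * |(z : ℝ)| ^ Fintype.card Pl := by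
  classical
  have h1 : (1 : ℝ) ≤ |(z : ℝ)| := by
    rw [← Int.cast_abs]; exact_mod_cast Int.one_le_abs hz
  have h2 := hpf z hz
  rw [← Finset.mul_prod_erase _ _ (Finset.mem_univ v)] at h2
  refine h2.trans (mul_le_mul_of_nonneg_left ?_ ((ab v).nonneg _))
  calc ∏ w ∈ Finset.univ.erase v, ab w z ≤ ∏ w ∈ Finset.univ.erase v, |(z : ℝ)| :=
        Finset.prod_le_prod (fun w _ => (ab w).nonneg _) fun w _ => hle w z
    _ = |(z : ℝ)| ^ (Finset.univ.erase v).card := Finset.prod_const _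
    _ ≤ _ := pow_le_pow_right₀ h1 (Finset.card_le_univ _)

lemma liouvilleK {K : Type} [Field K] [NumberField K] {Pl : Type} [Fintype Pl]
    (ab : Pl → AbsoluteValue K ℝ)
    (hle : ∀ v (z : ℤ), ab v z ≤ |(z : ℝ)|) (hpf : ∀ z : ℤ, z ≠ 0 → 1 ≤ ∏ v, ab v z) :
    ∃ (A : ℝ) (N : ℕ), 0 ≤ A ∧ ∀ (r : K) (H : ℝ), IsIntegral ℤ r → r ≠ 0 → 1 ≤ H →
      (∀ σ : K →+* ℂ, ‖σ r‖ ≤ H) → ∀ v, 1 ≤ ab v r * (A * H ^ N) := by
  classical
  set n : ℕ := Module.finrank ℚ K with hn
  set c : ℝ := (n.choose (n / 2) : ℝ) with hc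
  have hc1 : 1 ≤ c := by
    rw [hc]; exact_mod_cast Nat.choose_pos (Nat.div_le_self n 2)
  refine ⟨(n + 1) * c ^ (Fintype.card Pl + 1), n * (Fintype.card Pl + 1), by positivity, ?_⟩
  intro r H hr hr0 hH hσ v
  set M : ℝ := H ^ n * c with hM
  have hM1 : 1 ≤ M := one_le_mul_of_one_le_of_one_le (one_le_pow₀ hH) hc1
  have hn1 : (1 : ℝ) ≤ n + 1 := by
    have : (0 : ℝ) ≤ n := by positivity
    linarith
  have eM : ((n : ℝ) + 1) * c ^ (Fintype.card Pl + 1) * H ^ (n * (Fintype.card Pl + 1)) =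
      ((n + 1) * M) * M ^ Fintype.card Pl := by
    rw [hM, pow_mul, mul_pow]; ring
  rw [eM]
  by_cases h1 : 1 ≤ ab v r
  · exact one_le_mul_of_one_le_of_one_le h1 (one_le_mul_of_one_le_of_one_le
      (one_le_mul_of_one_le_of_one_le hn1 hM1) (one_le_pow₀ hM1))
  have h1' : ab v r ≤ 1 := (not_le.mp h1).le
  set f : Polynomial ℤ := minpoly ℤ r with hf
  have hmap : minpoly ℚ r = f.map (algebraMap ℤ ℚ) :=
    minpoly.isIntegrallyClosed_eq_field_fractions' ℚ hr
  have hco : ∀ i, (minpoly ℚ r).coeff i = (f.coeff i : ℚ) := fun i => by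
    rw [hmap, Polynomial.coeff_map]; simp
  have hb : ∀ i, |(f.coeff i : ℝ)| ≤ M := fun i => by
    have := NumberField.Embeddings.coeff_bdd_of_norm_le hσ i
    rw [max_eq_left hH, hco, Int.norm_cast_rat, Int.norm_eq_abs] at this
    exact this
  have h0 : f.coeff 0 ≠ 0 := by
    have := minpoly.coeff_zero_ne_zero (A := ℚ) (Algebra.IsIntegral.isIntegral r) hr0
    rw [hco] at this
    exact_mod_cast this
  have hdeg : f.natDegree ≤ n := by
    have h2 : (minpoly ℚ r).natDegree ≤ n := minpoly.natDegree_le r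
    rwa [hmap, Polynomial.natDegree_map_eq_of_injective (algebraMap ℤ ℚ).injective_int] at h2
  have hev : (f.coeff 0 : K) = -(r * Polynomial.aeval r f.divX) := by
    have h2 : Polynomial.aeval r f = 0 := minpoly.aeval ℤ r
    rw [← Polynomial.X_mul_divX_add f, map_add, map_mul, Polynomial.aeval_X,
      Polynomial.aeval_C] at h2
    rw [eq_neg_iff_add_eq_zero, add_comm]
    simpa using h2
  have hd : ab v (Polynomial.aeval r f.divX) ≤ (n + 1) * M := by
    rw [Polynomial.aeval_eq_sum_range' (n := n + 1)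
      (Nat.lt_succ_of_le (Polynomial.natDegree_divX_le.trans hdeg))]
    refine ((ab v).sum_le _ _).trans ?_
    have : ∀ i ∈ Finset.range (n + 1), ab v (f.divX.coeff i • r ^ i) ≤ M := fun i _ => by
      rw [zsmul_eq_mul, map_mul, map_pow, Polynomial.coeff_divX]
      calc ab v (f.coeff (i + 1) : ℤ) * ab v r ^ i ≤ M * 1 :=
            mul_le_mul ((hle v _).trans (hb _)) (pow_le_one₀ ((ab v).nonneg _) h1')
              (pow_nonneg ((ab v).nonneg _) _) (by linarith)
        _ = M := mul_one _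
    refine (Finset.sum_le_sum this).trans ?_
    rw [Finset.sum_const, Finset.card_range, nsmul_eq_mul]
    push_cast
    exact le_rfl
  have h3 := one_le_ab_mulK ab hle hpf (f.coeff 0) h0 v
  refine h3.trans ?_
  rw [← mul_assoc]
  refine mul_le_mul ?_ (pow_le_pow_left₀ (abs_nonneg _) (hb 0) _) (by positivity)
    (mul_nonneg ((ab v).nonneg _) (by positivity))
  rw [hev, AbsoluteValue.map_neg, map_mul]
  exact mul_le_mul_of_nonneg_left hd ((ab v).nonneg _)

lemma ab_adjugate_leK {K : Type} [Field K] {ι : Type} [Fintype ι] [DecidableEq ι]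
    (ab : AbsoluteValue K ℝ) (M : Matrix ι ι K) (u : ι → ℝ) (j0 i : ι)
    (h : ∀ i j, j ≠ j0 → ab (M i j) ≤ exp (u i)) :
    ab (M.adjugate j0 i) * exp (u i) ≤ (Fintype.card ι).factorial * exp (∑ r, u r) := by
  classical
  rw [Matrix.adjugate_apply, Matrix.det_apply]
  have key : ∀ σ : Equiv.Perm ι,
      ab (Equiv.Perm.sign σ • ∏ a, M.updateRow i (Pi.single j0 1) (σ a) a) * exp (u i)
        ≤ exp (∑ r, u r) := by
    intro σ
    have e : ab (Equiv.Perm.sign σ • ∏ a, M.updateRow i (Pi.single j0 1) (σ a) a) =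
        ∏ a, ab (M.updateRow i (Pi.single j0 1) (σ a) a) := by
      rcases Int.units_eq_one_or (Equiv.Perm.sign σ) with hs | hs
      · rw [hs, one_smul, map_prod]
      · rw [hs, Units.neg_smul, one_smul, AbsoluteValue.map_neg, map_prod]
    rw [e]
    by_cases hσ : σ j0 = i
    · rw [← Finset.mul_prod_erase _ _ (Finset.mem_univ j0), hσ, Matrix.updateRow_self,
        Pi.single_eq_same, ← Equiv.sum_comp σ, exp_sum,
        ← Finset.prod_erase_mul _ _ (Finset.mem_univ j0), hσ]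
      simp only [map_one, one_mul]
      refine mul_le_mul_of_nonneg_right ?_ (exp_pos _).le
      refine Finset.prod_le_prod (fun w _ => ab.nonneg _) fun a ha => ?_
      have ha' : a ≠ j0 := (Finset.mem_erase.mp ha).1
      have : σ a ≠ i := fun hh => ha' (σ.injective (hh.trans hσ.symm))
      rw [Matrix.updateRow_ne this]
      exact h _ _ ha'
    · have h0 : ab (M.updateRow i (Pi.single j0 1) (σ (σ.symm i)) (σ.symm i)) = 0 := by
        rw [Equiv.apply_symm_apply, Matrix.updateRow_self, Pi.single_eq_of_ne]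
        · simp
        · intro hh
          apply hσ
          rw [← hh, Equiv.apply_symm_apply]
      rw [Finset.prod_eq_zero (Finset.mem_univ (σ.symm i)) h0, zero_mul]
      exact (exp_pos _).le
  refine (mul_le_mul_of_nonneg_right (ab.sum_le _ _) (exp_pos _).le).trans ?_
  rw [Finset.sum_mul]
  refine (Finset.sum_le_sum fun σ _ => key σ).trans ?_
  rw [Finset.sum_const, Finset.card_univ, Fintype.card_perm, nsmul_eq_mul]

lemma row_ne_zeroK {K : Type} [Field K] {ι : Type} [Fintype ι] [DecidableEq ι] (M : Matrix ι ι K)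
    (hM : M.det ≠ 0) (j0 : ι) : ∃ i, M.adjugate j0 i ≠ 0 := by
  by_contra hc
  push Not at hc
  have := congrFun (congrFun (Matrix.adjugate_mul M) j0) j0
  rw [Matrix.mul_apply] at this
  simp only [hc, zero_mul, Finset.sum_const_zero, Matrix.smul_apply, Matrix.one_apply_eq,
    smul_eq_mul, mul_one] at this
  exact hM this.symm

lemma isIntegral_adjugateK {K : Type} [Field K] {ι : Type} [Fintype ι] [DecidableEq ι]
    (M : Matrix ι ι K) (hM : ∀ i j, IsIntegral ℤ (M i j)) (i j : ι) :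
    IsIntegral ℤ (M.adjugate i j) := by
  rw [Matrix.adjugate_apply]
  refine IsIntegral.det fun a b => ?_
  by_cases ha : a = j
  · rw [ha, Matrix.updateRow_self]
    by_cases hb : b = i
    · rw [hb, Pi.single_eq_same]; exact isIntegral_one
    · rw [Pi.single_eq_of_ne hb]; exact isIntegral_zero
  · rw [Matrix.updateRow_ne ha]; exact hM a b

lemma adjugate_mapK {K : Type} [Field K] {ι : Type} [Fintype ι] [DecidableEq ι]
    (Y : Matrix ι ι ℤ) (i j : ι) :
    (Y.map (Int.castRingHom K)).adjugate i j = (Y.adjugate i j : K) := by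
  have := (Int.castRingHom K).map_adjugate Y
  rw [RingHom.mapMatrix_apply, RingHom.mapMatrix_apply] at this
  rw [← this]
  rfl

lemma key_ineqK {K : Type} [Field K] [CharZero K] {ι Pl : Type} [Fintype ι] [DecidableEq ι]
    [Fintype Pl] (ab : Pl → AbsoluteValue K ℝ)
    (hle : ∀ v (z : ℤ), ab v z ≤ |(z : ℝ)|) (hpf : ∀ z : ℤ, z ≠ 0 → 1 ≤ ∏ v, ab v z)
    (A : ℝ) (N : ℕ) (hA0 : 0 ≤ A)
    (hA : ∀ (r : K) (H : ℝ), IsIntegral ℤ r → r ≠ 0 → 1 ≤ H →
      (∀ σ : K →+* ℂ, ‖σ r‖ ≤ H) → ∀ v, 1 ≤ ab v r * (A * H ^ N))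
    (L : Pl → Matrix ι ι K) (hLi : ∀ v i j, IsIntegral ℤ (L v i j)) (j0 : ι) (C : ℝ)
    (hC1 : 1 ≤ C) (hC : ∀ (σ : K →+* ℂ) v i, ∑ j, ‖σ ((L v).adjugate j i)‖ ≤ C)
    (Y : Matrix ι ι ℤ) (hY : Y.det ≠ 0) (u : Pl → ι → ℝ)
    (hu : ∀ v i j, j ≠ j0 → ab v ((L v * Y.map (Int.castRingHom K)) i j) ≤ exp (u v i))
    (T : ℝ) (hT : 1 ≤ T)
    (h : ∀ i0 i1, i0 ≠ i1 → Y.adjugate j0 i0 ≠ 0 →
      ((-(Y.adjugate j0 i1 : ℚ) / (Y.adjugate j0 i0 : ℚ)).den : ℝ) ≤ T)
    (c : Pl → ι) (hc : ∀ v, (L v * Y.map (Int.castRingHom K)).adjugate j0 (c v) ≠ 0) :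
    exp (∑ v, u v (c v)) ≤ ((Fintype.card ι).factorial * (A * C ^ N) *
      T ^ (Fintype.card ι * (N + 1))) ^ Fintype.card Pl * exp (∑ v, ∑ i, u v i) := by
  classical
  obtain ⟨n, a, ζ', hn, hnT, ha, hζ'⟩ := HeightAux.exists_scale (fun i => Y.adjugate j0 i)
    (Function.ne_iff.mpr (HeightAux.row_ne_zero Y hY j0)) T hT h
  set S : ℝ := T ^ Fintype.card ι with hS
  have hS1 : 1 ≤ S := one_le_pow₀ hT
  have hS0 : 0 ≤ S := by positivity
  have step : ∀ v, ab v a * exp (u v (c v)) ≤ ((Fintype.card ι).factorial * (A * C ^ N) *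
      T ^ (Fintype.card ι * (N + 1))) * exp (∑ i, u v i) := fun v => by
    set w : K := (L v * Y.map (Int.castRingHom K)).adjugate j0 (c v) with hw
    set w' : K := ∑ j, (ζ' j : K) * (L v).adjugate j (c v) with hw'
    have e : (n : K) * w = a * w' := by
      rw [hw, hw', Matrix.adjugate_mul_distrib, Matrix.mul_apply, Finset.mul_sum, Finset.mul_sum]
      refine Finset.sum_congr rfl fun j _ => ?_
      rw [adjugate_mapK, ← mul_assoc, ← Int.cast_mul, (hζ' j).1, Int.cast_mul, mul_assoc]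
    have hw'0 : w' ≠ 0 := by
      intro h0
      rw [h0, mul_zero] at e
      exact mul_ne_zero (Int.cast_ne_zero.mpr hn) (hc v) e
    have hw'i : IsIntegral ℤ w' := by
      rw [hw']
      exact IsIntegral.sum _ fun j _ =>
        (isIntegral_algebraMap (R := ℤ) (A := K) (x := ζ' j)).mul
          (isIntegral_adjugateK _ (hLi v) _ _)
    have hw'le : ∀ σ : K →+* ℂ, ‖σ w'‖ ≤ S * C := fun σ => by
      rw [hw', map_sum]
      refine (norm_sum_le _ _).trans ?_
      refine le_trans ?_ (mul_le_mul_of_nonneg_left (hC σ v (c v)) hS0)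
      rw [Finset.mul_sum]
      refine Finset.sum_le_sum fun j _ => ?_
      rw [map_mul, norm_mul, map_intCast, Complex.norm_intCast]
      exact mul_le_mul_of_nonneg_right (hζ' j).2 (norm_nonneg _)
    have h2 : 1 ≤ ab v w' * (A * (S * C) ^ N) :=
      hA w' (S * C) hw'i hw'0 (one_le_mul_of_one_le_of_one_le hS1 hC1) hw'le v
    have h3 : ab v a * ab v w' ≤ S * ab v w := by
      rw [← map_mul, ← e, map_mul]
      exact mul_le_mul_of_nonneg_right ((hle v n).trans hnT) ((ab v).nonneg _)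
    have h4 := ab_adjugate_leK (ab v) (L v * Y.map (Int.castRingHom K)) (u v) j0 (c v) (hu v)
    rw [← hw] at h4
    have hSC : 0 ≤ A * (S * C) ^ N := by positivity
    have h5 : ab v a ≤ S * (A * (S * C) ^ N) * ab v w := by
      calc ab v a ≤ ab v a * (ab v w' * (A * (S * C) ^ N)) :=
            le_mul_of_one_le_right ((ab v).nonneg _) h2
        _ = ab v a * ab v w' * (A * (S * C) ^ N) := by ring
        _ ≤ S * ab v w * (A * (S * C) ^ N) := mul_le_mul_of_nonneg_right h3 hSC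
        _ = _ := by ring
    calc ab v a * exp (u v (c v)) ≤ S * (A * (S * C) ^ N) * ab v w * exp (u v (c v)) :=
          mul_le_mul_of_nonneg_right h5 (exp_pos _).le
      _ = S * (A * (S * C) ^ N) * (ab v w * exp (u v (c v))) := by ring
      _ ≤ S * (A * (S * C) ^ N) * ((Fintype.card ι).factorial * exp (∑ i, u v i)) :=
          mul_le_mul_of_nonneg_left h4 (mul_nonneg hS0 hSC)
      _ = _ := by rw [hS]; ring
  have hp := Finset.prod_le_prod (s := Finset.univ)
    (fun v _ => mul_nonneg ((ab v).nonneg a) (exp_pos (u v (c v))).le) fun v _ => step v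
  rw [Finset.prod_mul_distrib, Finset.prod_mul_distrib, Finset.prod_const, Finset.card_univ,
    ← exp_sum, ← exp_sum] at hp
  exact (le_mul_of_one_le_left (exp_pos _).le (hpf a ha)).trans hp

lemma final_ineqK {K : Type} [Field K] {ι Pl : Type} [Fintype ι] [DecidableEq ι] [Fintype Pl]
    (ab : Pl → AbsoluteValue K ℝ) (hpf : ∀ z : ℤ, z ≠ 0 → 1 ≤ ∏ v, ab v z)
    (L : Pl → Matrix ι ι K) (j0 j : ι) (Y0 Y : Matrix ι ι ℤ) (u : Pl → ι → ℝ)
    (hu : ∀ v i, ab v ((L v * Y.map (Int.castRingHom K)) i j) ≤ exp (u v i)) (c : Pl → ι)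
    (hc : ∀ v i, (L v * Y0.map (Int.castRingHom K)).adjugate j0 i ≠ 0 → u v i ≤ u v (c v))
    (hz : ∑ i, Y0.adjugate j0 i * Y i j ≠ 0) :
    ∏ v, ab v (L v).det ≤
      (∏ v, ∑ i, ab v ((L v * Y0.map (Int.castRingHom K)).adjugate j0 i)) *
        exp (∑ v, u v (c v)) := by
  classical
  set z : ℤ := ∑ i, Y0.adjugate j0 i * Y i j with hz'
  have step : ∀ v, ab v z * ab v (L v).det ≤
      (∑ i, ab v ((L v * Y0.map (Int.castRingHom K)).adjugate j0 i)) * exp (u v (c v)) :=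
    fun v => by
    have e : (z : K) * (L v).det = ∑ i, (L v * Y0.map (Int.castRingHom K)).adjugate j0 i *
        (L v * Y.map (Int.castRingHom K)) i j := by
      rw [← Matrix.mul_apply, Matrix.adjugate_mul_distrib, Matrix.mul_assoc,
        ← Matrix.mul_assoc (L v).adjugate, Matrix.adjugate_mul, Matrix.smul_mul, Matrix.one_mul,
        Matrix.mul_smul, Matrix.smul_apply, Matrix.mul_apply, smul_eq_mul, mul_comm, hz']
      congr 1
      push_cast
      refine Finset.sum_congr rfl fun i _ => ?_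
      rw [adjugate_mapK]
      rfl
    rw [← map_mul, e]
    refine ((ab v).sum_le _ _).trans ?_
    rw [Finset.sum_mul]
    refine Finset.sum_le_sum fun i _ => ?_
    rw [map_mul]
    by_cases h0 : (L v * Y0.map (Int.castRingHom K)).adjugate j0 i = 0
    · rw [h0]; simp
    · exact mul_le_mul_of_nonneg_left ((hu v i).trans (exp_le_exp.mpr (hc v i h0)))
        ((ab v).nonneg _)
  have hp := Finset.prod_le_prod (s := Finset.univ)
    (fun v _ => mul_nonneg ((ab v).nonneg z) ((ab v).nonneg (L v).det)) fun v _ => step v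
  rw [Finset.prod_mul_distrib, Finset.prod_mul_distrib, ← exp_sum] at hp
  exact (le_mul_of_one_le_left (Finset.prod_nonneg fun v _ => (ab v).nonneg _) (hpf z hz)).trans hp

end HeightAuxK

open HeightAuxK in
theorem height_dichotomyK {K : Type} [Field K] [NumberField K] {ι Pl : Type} [Fintype ι]
    [DecidableEq ι] [Fintype Pl] (ab : Pl → AbsoluteValue K ℝ)
    (hle : ∀ v (z : ℤ), ab v z ≤ |(z : ℝ)|) (hpf : ∀ z : ℤ, z ≠ 0 → 1 ≤ ∏ v, ab v z)
    (L : Pl → Matrix ι ι K) (hLi : ∀ v i j, IsIntegral ℤ (L v i j)) (hL : ∀ v, (L v).det ≠ 0)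
    (j0 : ι) (U : Ultrafilter ℕ) (q : ℕ → ℝ) (hq : Tendsto q U atTop) (δ : ℝ) (hδ : 0 < δ)
    (Y : ℕ → Matrix ι ι ℤ) (u : ℕ → Pl → ι → ℝ)
    (h : ∀ᶠ k in U, (Y k).det ≠ 0 ∧ ∑ v, ∑ i, u k v i ≤ -δ * q k ∧
      ∀ v i j, j ≠ j0 → ab v ((L v * (Y k).map (Int.castRingHom K)) i j) ≤ exp (u k v i)) :
    (∃ ζ : ι → ℤ, ζ ≠ 0 ∧ ∀ᶠ k in U, ∀ j, j ≠ j0 → ∑ i, ζ i * Y k i j = 0) ∨
    ∃ (η : ℝ) (i0 i1 : ι), 0 < η ∧ i0 ≠ i1 ∧ ∀ᶠ k in U, (Y k).adjugate j0 i0 ≠ 0 ∧
      η * q k ≤ log ((-((Y k).adjugate j0 i1 : ℚ) / ((Y k).adjugate j0 i0 : ℚ)).den) := by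
  classical
  obtain ⟨A, N, hA0, hA⟩ := liouvilleK ab hle hpf
  rw [or_iff_not_imp_right]
  intro hn
  set E : ℕ := Fintype.card ι * (N + 1) * Fintype.card Pl with hE
  set η : ℝ := δ / (2 * (E + 1)) with hη
  have hη0 : 0 < η := by positivity
  have hηE : E * η ≤ δ / 2 := by
    rw [hη, mul_div_assoc', div_le_div_iff₀ (by positivity) (by positivity)]
    nlinarith
  have h1 : ∀ᶠ k in U, ∀ i0 i1, i0 ≠ i1 → (Y k).adjugate j0 i0 ≠ 0 →
      ((-((Y k).adjugate j0 i1 : ℚ) / ((Y k).adjugate j0 i0 : ℚ)).den : ℝ) ≤ exp (η * q k) := by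
    refine eventually_all.mpr fun i0 => eventually_all.mpr fun i1 => ?_
    by_cases h01 : i0 = i1
    · exact Eventually.of_forall fun k hk => absurd h01 hk
    · have := Ultrafilter.eventually_not.mpr fun hh => hn ⟨η, i0, i1, hη0, h01, hh⟩
      refine this.mono fun k hk _ h0 => ?_
      have h2 := not_le.mp fun hh => hk ⟨h0, hh⟩
      exact ((log_le_iff_le_exp (by exact_mod_cast Rat.den_pos _)).mp h2.le)
  obtain ⟨I, hI⟩ := (Ultrafilter.eventually_exists_iff (f := U)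
    (P := fun (I : Pl → Finset ι) k => ∀ v i, i ∈ I v ↔
      (L v * (Y k).map (Int.castRingHom K)).adjugate j0 i ≠ 0)).mp
    (Eventually.of_forall fun k =>
      ⟨fun v => Finset.univ.filter fun i =>
        (L v * (Y k).map (Int.castRingHom K)).adjugate j0 i ≠ 0, fun v i => by simp⟩)
  obtain ⟨k0, hk0, hI0⟩ := (h.and hI).exists
  refine ⟨fun i => (Y k0).adjugate j0 i,
    Function.ne_iff.mpr (HeightAux.row_ne_zero _ hk0.1 j0), ?_⟩
  set C : ℝ := 1 + ∑ σ : K →+* ℂ, ∑ v, ∑ i, ∑ j, ‖σ ((L v).adjugate j i)‖ with hC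
  have hC1 : 1 ≤ C := le_add_of_nonneg_right (by positivity)
  have hC' : ∀ (σ : K →+* ℂ) v i, ∑ j, ‖σ ((L v).adjugate j i)‖ ≤ C := fun σ v i => by
    calc _ ≤ ∑ i, ∑ j, ‖σ ((L v).adjugate j i)‖ :=
          Finset.single_le_sum (f := fun i => ∑ j, ‖σ ((L v).adjugate j i)‖)
            (fun _ _ => by positivity) (Finset.mem_univ i)
      _ ≤ ∑ v, ∑ i, ∑ j, ‖σ ((L v).adjugate j i)‖ :=
          Finset.single_le_sum (f := fun v => ∑ i, ∑ j, ‖σ ((L v).adjugate j i)‖)
            (fun _ _ => by positivity) (Finset.mem_univ v)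
      _ ≤ ∑ σ : K →+* ℂ, ∑ v, ∑ i, ∑ j, ‖σ ((L v).adjugate j i)‖ :=
          Finset.single_le_sum
            (f := fun σ : K →+* ℂ => ∑ v, ∑ i, ∑ j, ‖σ ((L v).adjugate j i)‖)
            (fun _ _ => by positivity) (Finset.mem_univ σ)
      _ ≤ C := le_add_of_nonneg_left zero_le_one
  have hP0 : 0 ≤ ∏ v, ∑ i, ab v ((L v * (Y k0).map (Int.castRingHom K)).adjugate j0 i) :=
    Finset.prod_nonneg fun v _ => Finset.sum_nonneg fun i _ => (ab v).nonneg _
  set W : ℝ := (∏ v, ∑ i, ab v ((L v * (Y k0).map (Int.castRingHom K)).adjugate j0 i)) *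
    ((Fintype.card ι).factorial * (A * C ^ N)) ^ Fintype.card Pl with hW
  set D : ℝ := ∏ v, ab v (L v).det with hD
  have hD0 : 0 < D := Finset.prod_pos fun v _ => (ab v).pos (hL v)
  have hlim : Tendsto (fun k => W * exp (-(δ / 2 * q k))) U (nhds 0) := by
    have := (tendsto_exp_neg_atTop_nhds_zero.comp
      (hq.const_mul_atTop (by positivity : 0 < δ / 2))).const_mul W
    simpa using this
  filter_upwards [h, hI, h1, hq.eventually_ge_atTop 0, hlim.eventually_lt_const hD0]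
    with k hk hIk h1k hq0 hlt j hj
  by_contra hz
  have hne : ∀ v, (I v).Nonempty := fun v => by
    obtain ⟨i, hi⟩ := row_ne_zeroK (L v * (Y k).map (Int.castRingHom K)) (by
      rw [Matrix.det_mul, ← RingHom.mapMatrix_apply, ← RingHom.map_det]
      exact mul_ne_zero (hL v) (Int.cast_ne_zero.mpr hk.1)) j0
    exact ⟨i, (hIk v i).mpr hi⟩
  choose c hc hc' using fun v => Finset.exists_max_image (I v) (u k v) (hne v)
  have a1 := final_ineqK ab hpf L j0 j (Y k0) (Y k) (u k) (fun v i => hk.2.2 v i j hj) c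
    (fun v i hi => hc' v i ((hI0 v i).mpr hi)) hz
  have a2 := key_ineqK ab hle hpf A N hA0 hA L hLi j0 C hC1 hC' (Y k) hk.1 (u k) hk.2.2
    (exp (η * q k)) (one_le_exp (by positivity)) h1k c fun v => (hIk v _).mp (hc v)
  refine absurd (a1.trans ?_) (not_le.mpr hlt)
  rw [hW, mul_assoc]
  refine mul_le_mul_of_nonneg_left (a2.trans ?_) hP0
  rw [mul_pow, mul_assoc]
  refine mul_le_mul_of_nonneg_left ?_ (by positivity)
  rw [← pow_mul, ← hE, ← exp_nat_mul, ← exp_add, exp_le_exp]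
  have := mul_le_mul_of_nonneg_right hηE hq0
  nlinarith [hk.2.1]

end Pool.Agent.Shared.SubspaceAlg
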